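import Pool.Agent.MP_fcd29e_an.H31.Spec3

/-!
From the dual description of the Sobolev space to Bessel potentials.
-/

set_option autoImplicit false

open MeasureTheory Complex Set Filter Topology Metric Pool.Agent.MP_fcd29e_an.H81
  Pool.Agent.MP_fcd29e_an.H31
open scoped ContDiff ComplexConjugate ENNReal NNReal FourierTransform SchwartzMap

namespace Pool.Agent.MP_fcd29e_an.H14

noncomputable section

variable {N : ℕ}

/-- The multiplier of order `-s`. -/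
def mm (s : ℝ) (ξ : E N) : ℂ := ((1 + ‖ξ‖ ^ 2) ^ (-s / 2) : ℝ)

theorem mm_norm (s : ℝ) (ξ : E N) : ‖mm s ξ‖ = (1 + ‖ξ‖ ^ 2) ^ (-s / 2) := by
  rw [mm, Complex.norm_real, Real.norm_of_nonneg (by positivity)]

theorem mm_le {s : ℝ} (hs : 0 ≤ s) (ξ : E N) : ‖mm s ξ‖ ≤ 1 := by
  rw [mm_norm]
  exact Real.rpow_le_one_of_one_le_of_nonpos (le_add_of_nonneg_right (sq_nonneg _)) (by linarith)

theorem mm_sq (s : ℝ) (ξ : E N) : ‖mm s ξ‖ ^ 2 = (1 + ‖ξ‖ ^ 2) ^ (-s) := by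
  rw [mm_norm, ← Real.rpow_natCast, ← Real.rpow_mul (by positivity)]
  congr 1
  push_cast
  ring

theorem mm_cont (s : ℝ) : Continuous (mm s : E N → ℂ) := by
  refine Complex.continuous_ofReal.comp ?_
  exact (Function.hasTemperateGrowth_one_add_norm_sq_rpow (E N) (-s / 2)).1.continuous

theorem mm_inv (s : ℝ) (ξ : E N) : (((1 + ‖ξ‖ ^ 2) ^ (s / 2) : ℝ) : ℂ) * mm s ξ = 1 := by
  rw [mm, ← Complex.ofReal_mul, ← Real.rpow_add (by positivity),
    show s / 2 + -s / 2 = 0 by ring, Real.rpow_zero, Complex.ofReal_one]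

theorem mm_memLp {s : ℝ} (hs : 0 ≤ s) {f : E N → ℂ} (hf : MemLp f 2 volume) :
    MemLp (fun ξ => mm s ξ * f ξ) 2 volume := by
  refine hf.of_le ((mm_cont s).aestronglyMeasurable.mul hf.1) (ae_of_all _ fun ξ => ?_)
  rw [norm_mul]
  exact mul_le_of_le_one_left (norm_nonneg _) (mm_le hs ξ)

/-- Test functions, as Schwartz functions. -/
def DD (N : ℕ) : Submodule ℂ 𝓢(E N, ℂ) where
  carrier := {φ | HasCompactSupport φ}
  add_mem' := fun ha hb => HasCompactSupport.add ha hb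
  zero_mem' := HasCompactSupport.zero
  smul_mem' := fun c _ h => HasCompactSupport.smul_left (f := fun _ => c) h

/-- The weighted inverse Fourier transform. -/
def TT (s : ℝ) : DD N →ₗ[ℂ] E N → ℂ where
  toFun φ ξ := mm s ξ * (𝓕⁻ φ.1 : 𝓢(E N, ℂ)) ξ
  map_add' φ ψ := by
    funext ξ
    simp only [Submodule.coe_add, FourierTransform.fourierInv_add, add_apply,
      Pi.add_apply, mul_add]
  map_smul' c φ := by
    funext ξ
    simp only [Submodule.coe_smul, FourierTransform.fourierInv_smul, smul_apply,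
      Pi.smul_apply, smul_eq_mul, RingHom.id_apply]
    ring

/-- A distribution on test functions. -/
def ll (G : 𝓢'(E N, ℂ)) : DD N →ₗ[ℂ] ℂ where
  toFun φ := G φ.1
  map_add' φ ψ := by simp only [Submodule.coe_add, map_add]
  map_smul' c φ := by simp only [Submodule.coe_smul, map_smul, RingHom.id_apply]

theorem TT_memLp {s : ℝ} (hs : 0 ≤ s) (φ : DD N) : MemLp (TT s φ) 2 volume :=
  mm_memLp hs ((𝓕⁻ φ.1 : 𝓢(E N, ℂ)).memLp 2)

theorem FN_eq {s : ℝ} (hs : 0 ≤ s) (φ : DD N) :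
    FN s φ.1 = ENNReal.ofReal (∫ ξ, ‖TT s φ ξ‖ ^ 2) := by
  have h1 : Integrable (fun ξ => ‖TT s φ ξ‖ ^ 2) volume :=
    (memLp_two_iff_integrable_sq_norm (TT_memLp hs φ).1).mp (TT_memLp hs φ)
  rw [ofReal_integral_eq_lintegral_ofReal h1 (ae_of_all _ fun ξ => sq_nonneg _), FN,
    ← lintegral_neg_eq_self]
  refine lintegral_congr fun ξ => ?_
  congr 1
  change _ = ‖mm s ξ * (𝓕⁻ φ.1 : 𝓢(E N, ℂ)) ξ‖ ^ 2
  rw [norm_mul, mul_pow, mm_sq, norm_neg, SchwartzMap.fourierInv_coe,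
    Real.fourierInv_eq_fourier_neg]

theorem toLp_apply {g : E N → ℂ} (h : MemLp g 2 volume) (φ : 𝓢(E N, ℂ)) :
    ((h.toLp g : Lp ℂ 2 volume) : 𝓢'(E N, ℂ)) φ = ∫ x, g x * φ x := by
  rw [Lp.toTemperedDistribution_apply]
  refine integral_congr_ae ?_
  filter_upwards [h.coeFn_toLp] with x hx
  rw [hx, smul_eq_mul, mul_comm]

theorem ext_test (A B : Lp ℂ 2 (volume : Measure (E N)))
    (h : ∀ φ : 𝓢(E N, ℂ), HasCompactSupport φ → (A : 𝓢'(E N, ℂ)) φ = (B : 𝓢'(E N, ℂ)) φ) :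
    A = B := by
  refine Lp.ext (ae_eq_of_integral_contDiff_smul_eq
    ((Lp.memLp A).locallyIntegrable (by norm_num)) ((Lp.memLp B).locallyIntegrable (by norm_num))
    fun u hu hc => ?_)
  have h₁ : HasCompactSupport (Complex.ofRealCLM ∘ u) := hc.comp_left rfl
  have h₂ : ContDiff ℝ ∞ (Complex.ofRealCLM ∘ u) := by fun_prop
  have := h (h₁.toSchwartzMap h₂) h₁
  rw [Lp.toTemperedDistribution_apply, Lp.toTemperedDistribution_apply] at this
  exact this

theorem eq2' (hR : StmtRZ) : StmtEQ2 := by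
  intro N s hs g h ⟨_, C, hC⟩
  obtain ⟨v, hv, hl⟩ := hR.1 (E N) Unit (DD N) volume (fun _ => TT s)
    (ll ((h.toLp g : Lp ℂ 2 volume) : 𝓢'(E N, ℂ))) C C.coe_nonneg (fun _ φ => TT_memLp hs φ)
    (fun φ => by
      have h1 := hC φ.1 ⟨φ.1.smooth', φ.2⟩
      rw [FN_eq hs, ← ENNReal.ofReal_coe_nnreal, ← ENNReal.ofReal_mul C.coe_nonneg,
        ENNReal.ofReal_le_ofReal_iff (mul_nonneg C.coe_nonneg
          (integral_nonneg fun ξ => sq_nonneg _))] at h1
      rw [Fintype.sum_unique]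
      change ‖((h.toLp g : Lp ℂ 2 volume) : 𝓢'(E N, ℂ)) φ.1‖ ^ 2 ≤ _
      rw [toLp_apply]
      exact h1)
  have hv2 : MemLp (v ()) 2 volume := (hv ()).2
  have hw := mm_memLp hs hv2
  have hG : (h.toLp g : Lp ℂ 2 volume) = 𝓕⁻ (hw.toLp _ : Lp ℂ 2 volume) := by
    refine ext_test _ _ fun φ hφ => ?_
    rw [← Lp.fourierInv_toTemperedDistribution_eq, TemperedDistribution.fourierInv_apply,
      toLp_apply hw]
    refine (hl ⟨φ, hφ⟩).trans ?_
    rw [Fintype.sum_unique]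
    refine integral_congr_ae (ae_of_all _ fun ξ => ?_)
    change v () ξ * (mm s ξ * (𝓕⁻ φ : 𝓢(E N, ℂ)) ξ) = mm s ξ * v () ξ * (𝓕⁻ φ : 𝓢(E N, ℂ)) ξ
    ring
  rw [TemperedDistribution.memSobolev_iff_exists_smulLeftCLM_fourier]
  refine ⟨hv2.toLp _, ?_⟩
  rw [Lp.fourier_toTemperedDistribution_eq, hG, FourierTransform.fourier_fourierInv_eq]
  ext φ
  rw [TemperedDistribution.smulLeftCLM_apply_apply, toLp_apply, toLp_apply]
  refine integral_congr_ae (ae_of_all _ fun ξ => ?_)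
  have ht : (fun x : E N => (((1 + ‖x‖ ^ 2) ^ (s / 2) : ℝ) : ℂ)).HasTemperateGrowth := by fun_prop
  change mm s ξ * v () ξ * _ = v () ξ * φ ξ
  rw [SchwartzMap.smulLeftCLM_apply_apply ht, smul_eq_mul]
  linear_combination (v () ξ * φ ξ) * mm_inv s ξ

theorem eq2 (L : Lv0) (_h : StmtFA) : StmtEQ2 := eq2' L.rz

end

end Pool.Agent.MP_fcd29e_an.H14
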